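import Mathlib
import Pool.Agent.Helper35.HG.StE

/-!
Project HG (MP_925021_gt), module PQ2A.
-/

set_option autoImplicit false

namespace Helper8.HG

open Helper35.HG Helper35.HC Helper35.HSF Helper35.MS Helper35.PI Helper35.PI2 Helper32.CL

theorem aux_nonpos {E w P : ℝ} (hw : 0 < w) (h : E * w = P) (hP : P ≤ 0) : E ≤ 0 := by
  by_contra hc
  push Not at hc
  have := mul_pos hc hw
  linarith

theorem hPQ2A : StPQ2A := by
  intro u g hu hug hg3
  have hg0 : 0 ≤ g := le_trans hu hug
  have h1u : 0 < 1 + u := by linarith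
  have h1g : 0 < 1 + g := by linarith
  have hw : 0 < (1 + u) * (1 + g) := mul_pos h1u h1g
  refine ⟨fun hg6 => ⟨?_, fun hgp => ?_⟩, fun hg6 => ⟨?_, fun hX => ?_, fun hX => ?_⟩⟩
  · rcases hg0.eq_or_lt with h0 | hgp
    · have hu0 : u = 0 := le_antisymm (by rw [h0]; exact hug) hu
      subst hu0
      rw [← h0]
      simp [cC, cD8]
    · obtain ⟨t, ht⟩ : ∃ t, t = u / g := ⟨_, rfl⟩
      have hut : u = t * g := by rw [ht]; field_simp
      have ht0 : 0 ≤ t := by rw [ht]; positivity
      have ht1 : t ≤ 1 := by rw [ht, div_le_one hgp]; exact hug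
      have hP := Poly.a8 t g ht0 ht1 hg0 hg6
      have hP2 := mul_nonpos_of_nonneg_of_nonpos hg0 hP
      refine aux_nonpos hw ?_ hP2
      subst hut
      unfold cC cD8 D1f
      field_simp
      ring
  · obtain ⟨t, ht⟩ : ∃ t, t = u / g := ⟨_, rfl⟩
    have hut : u = t * g := by rw [ht]; field_simp
    have ht0 : 0 ≤ t := by rw [ht]; positivity
    have ht1 : t ≤ 1 := by rw [ht, div_le_one hgp]; exact hug
    have hP := Poly.a18 t g ht0 ht1 hg0 hg6
    have hP2 := mul_nonpos_of_nonneg_of_nonpos hg0 hP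
    refine aux_nonpos hw ?_ hP2
    subst hut
    unfold cA8 cC cD8 D1f
    field_simp
    ring
  · have hgp : 0 < g := by linarith
    obtain ⟨t, ht⟩ : ∃ t, t = u / g := ⟨_, rfl⟩
    have hut : u = t * g := by rw [ht]; field_simp
    have ht0 : 0 ≤ t := by rw [ht]; positivity
    have ht1 : t ≤ 1 := by rw [ht, div_le_one hgp]; exact hug
    have hP := Poly.b8 t g ht0 ht1 hg6 hg3
    have hP2 := mul_nonpos_of_nonneg_of_nonpos hg0 hP
    refine aux_nonpos hw ?_ hP2
    subst hut
    unfold cC cD8 D1f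
    field_simp
    ring
  · have hu4 : u ≤ 403 / 10000 := by nlinarith
    have hP := Poly.b18 u g hu hu4 hg6 hg3
    refine aux_nonpos hw ?_ hP
    unfold cA8 cC cD8 D1f
    field_simp
    ring
  · have hu4 : 4 / 100 ≤ u := by nlinarith
    have hgp : 0 < g - 4 / 100 := by linarith
    obtain ⟨t, ht⟩ : ∃ t, t = (u - 4 / 100) / (g - 4 / 100) := ⟨_, rfl⟩
    have hut : u = 4 / 100 + t * (g - 4 / 100) := by
      rw [ht, div_mul_cancel₀ _ hgp.ne']
      ring
    have ht0 : 0 ≤ t := by
      rw [ht]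
      exact div_nonneg (by linarith) hgp.le
    have ht1 : t ≤ 1 := by
      rw [ht, div_le_one hgp]
      linarith
    have hP := Poly.b28 t g ht0 ht1 hg6 hg3
    refine aux_nonpos hw ?_ hP
    have key : (cA8 u g + cC (4 / 5) u g + cD8 u g) * ((1 + u) * (1 + g)) =
        (cA8 u g + cC (4 / 5) u g) * ((1 + u) * (1 + g))
          + 64 / 3 * (u * (u + 2)) * ((-(1064 / 10000) + 92 / 1000 * (3 / 10 * g))
              * ((1 + u) * (1 + g))
            + 1184 / 1000 * (3 / 10 * g * (1 + u) - 3 / 10 * u * u) * (1 + g))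
          - 6938 / 10000 * (16 / 5 * (g * (g + 2)) ^ 2) * (1 + u) := by
      unfold cD8 D1f
      field_simp
      ring
    rw [key]
    unfold cA8 cC
    rw [hut]
    ring

end Helper8.HG
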