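import Pool.Agent.Helper80.HG.St

/-!
Project HG, module LC: the calculus of levels.
-/

set_option autoImplicit false

namespace Pool.Agent.Helper8.HG

open Pool.Agent.Helper80.HG Filter Topology Asymptotics
open scoped commutatorElement

theorem expIter_top (n : ℕ) : Tendsto (Real.exp^[n]) atTop atTop := by
  induction n with
  | zero => simpa using tendsto_id
  | succ n ih =>
    rw [Function.iterate_succ]
    exact ih.comp Real.tendsto_exp_atTop

theorem logIter_top (n : ℕ) : Tendsto (Real.log^[n]) atTop atTop := by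
  induction n with
  | zero => simpa using tendsto_id
  | succ n ih =>
    rw [Function.iterate_succ]
    exact ih.comp Real.tendsto_log_atTop

theorem expLog (n : ℕ) : ∀ᶠ y in atTop, Real.exp^[n] (Real.log^[n] y) = y := by
  induction n with
  | zero => exact Filter.Eventually.of_forall fun y => by simp
  | succ n ih =>
    have h1 : ∀ᶠ y : ℝ in atTop, 0 < Real.log^[n] y := (logIter_top n).eventually_gt_atTop 0
    filter_upwards [ih, h1] with y hy h1y
    rw [Function.iterate_succ_apply' Real.log n y, Function.iterate_succ_apply Real.exp n,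
      Real.exp_log h1y, hy]

/-- perturbation through one logarithm -/
theorem log_pert {u v : ℝ → ℝ} (hv : Tendsto v atTop atTop)
    (h : Tendsto (fun x => u x - v x) atTop (𝓝 0)) :
    Tendsto (fun x => Real.log (u x) - Real.log (v x)) atTop (𝓝 0) := by
  have h1 : Tendsto (fun x => (u x - v x) / v x) atTop (𝓝 0) := h.div_atTop hv
  have h2 : Tendsto (fun x => Real.log (1 + (u x - v x) / v x)) atTop (𝓝 (Real.log (1 + 0))) :=
    (Real.continuousAt_log (by norm_num)).tendsto.comp (tendsto_const_nhds.add h1)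
  rw [add_zero, Real.log_one] at h2
  refine h2.congr' ?_
  have h3 : ∀ᶠ x in atTop, 0 < v x := hv.eventually_gt_atTop 0
  have h4 : ∀ᶠ x in atTop, -1 < (u x - v x) / v x :=
    h1.eventually (lt_mem_nhds (by norm_num : (-1 : ℝ) < 0))
  filter_upwards [h3, h4] with x h3 h4
  have h5 : 1 + (u x - v x) / v x = u x / v x := by
    field_simp
    ring
  have h6 : 0 < u x / v x := by rw [← h5]; linarith
  have h7 : u x ≠ 0 := by
    intro h0
    rw [h0, zero_div] at h6
    exact lt_irrefl _ h6
  rw [h5, Real.log_div h7 (ne_of_gt h3)]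

/-- if `u - v → 0` and `v → +∞` then `u → +∞` -/
theorem top_pert {u v : ℝ → ℝ} (hv : Tendsto v atTop atTop)
    (h : Tendsto (fun x => u x - v x) atTop (𝓝 0)) : Tendsto u atTop atTop := by
  have h1 : Tendsto (fun x => (u x - v x) + v x) atTop atTop := h.add_atTop hv
  refine h1.congr fun x => ?_
  ring

theorem logIter_pert (n : ℕ) {u v : ℝ → ℝ} (hv : Tendsto v atTop atTop)
    (h : Tendsto (fun x => u x - v x) atTop (𝓝 0)) :
    Tendsto (fun x => Real.log^[n] (u x) - Real.log^[n] (v x)) atTop (𝓝 0) := by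
  induction n generalizing u v with
  | zero => simpa using h
  | succ n ih =>
    simp only [Function.iterate_succ_apply]
    exact ih (Real.tendsto_log_atTop.comp hv) (log_pert hv h)

theorem logExp (n : ℕ) (x : ℝ) : Real.log^[n] (Real.exp^[n] x) = x :=
  (Function.LeftInverse.iterate (fun y => Real.log_exp y) n) x

theorem lvl_succ (f : ℝ → ℝ) (m n : ℕ) (h : Lvl f m n) : Lvl f (m + 1) (n + 1) := by
  unfold Lvl at h ⊢
  have h1 : Tendsto (fun x => Real.log^[m] (f (Real.exp^[n] (Real.exp x))) - Real.exp x) atTop (𝓝 0) :=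
    h.comp Real.tendsto_exp_atTop
  have h2 := log_pert Real.tendsto_exp_atTop h1
  refine h2.congr fun x => ?_
  rw [Real.log_exp, Function.iterate_succ_apply', Function.iterate_succ_apply]

theorem lvl_add (f : ℝ → ℝ) (m n k : ℕ) (h : Lvl f m n) : Lvl f (m + k) (n + k) := by
  induction k with
  | zero => simpa using h
  | succ k ih => exact lvl_succ f _ _ ih

theorem lvl_comp (f g : ℝ → ℝ) (m n m' n' : ℕ) (hg : Tendsto g atTop atTop)
    (h1 : Lvl f m n) (h2 : Lvl g m' n') : Lvl (fun x => f (g x)) (m + m') (n + n') := by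
  have h3 : Lvl f (m + m') (n + m') := lvl_add f m n m' h1
  unfold Lvl at h2 h3 ⊢
  -- `t y - exp^[n] y → 0`
  have h4 : Tendsto (fun y => Real.log^[m'] (g (Real.exp^[n'] (Real.exp^[n] y))) - Real.exp^[n] y)
      atTop (𝓝 0) := h2.comp (expIter_top n)
  have h5 := logIter_pert n (expIter_top n) h4
  have h6 : Tendsto (fun y => Real.log^[n] (Real.log^[m'] (g (Real.exp^[n'] (Real.exp^[n] y)))) - y)
      atTop (𝓝 0) := by
    refine h5.congr fun y => ?_
    rw [logExp]
  have h7 : Tendsto (fun y => Real.log^[n] (Real.log^[m'] (g (Real.exp^[n'] (Real.exp^[n] y)))))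
      atTop atTop := top_pert tendsto_id h6
  have h8 := (h3.comp h7).add h6
  rw [add_zero] at h8
  refine h8.congr' ?_
  have hG : Tendsto (fun y => g (Real.exp^[n'] (Real.exp^[n] y))) atTop atTop :=
    hg.comp ((expIter_top n').comp (expIter_top n))
  have e1 : ∀ᶠ y in atTop, Real.exp^[m'] (Real.log^[m'] (g (Real.exp^[n'] (Real.exp^[n] y)))) =
      g (Real.exp^[n'] (Real.exp^[n] y)) := hG.eventually (expLog m')
  have hT : Tendsto (fun y => Real.log^[m'] (g (Real.exp^[n'] (Real.exp^[n] y)))) atTop atTop :=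
    (logIter_top m').comp hG
  have e2 : ∀ᶠ y in atTop, Real.exp^[n] (Real.log^[n] (Real.log^[m'] (g (Real.exp^[n'] (Real.exp^[n] y))))) =
      Real.log^[m'] (g (Real.exp^[n'] (Real.exp^[n] y))) := hT.eventually (expLog n)
  filter_upwards [e1, e2] with y e1 e2
  have e3 : Real.exp^[n + m'] (Real.log^[n] (Real.log^[m'] (g (Real.exp^[n'] (Real.exp^[n] y))))) =
      g (Real.exp^[n + n'] y) := by
    rw [add_comm n m', Function.iterate_add_apply, e2, e1, add_comm n n', Function.iterate_add_apply]
  simp only [Function.comp_apply]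
  rw [e3]
  ring

theorem logIter_le (k : ℕ) : ∀ᶠ t : ℝ in atTop, Real.log^[k + 1] t ≤ t - 1 := by
  induction k with
  | zero =>
    filter_upwards [eventually_gt_atTop (0 : ℝ)] with t ht
    simpa using Real.log_le_sub_one_of_pos ht
  | succ k ih =>
    filter_upwards [ih, (logIter_top (k + 1)).eventually_gt_atTop 0] with t h1 h2
    rw [Function.iterate_succ_apply']
    have := Real.log_le_sub_one_of_pos h2
    linarith

theorem lvl_no (F : ℝ → ℝ) (a k : ℕ)
    (h1 : Tendsto (fun x => Real.log^[a] (F x) - x) atTop (𝓝 0))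
    (h2 : Tendsto (fun x => Real.log^[k + 1 + a] (F x) - x) atTop (𝓝 0)) : False := by
  have h3 : Tendsto (fun x => Real.log^[a] (F x)) atTop atTop := top_pert tendsto_id h1
  have h4 := h3.eventually (logIter_le k)
  have h5 := h1.sub h2
  rw [sub_zero] at h5
  have h6 := h5.eventually (gt_mem_nhds (by norm_num : (0 : ℝ) < 1))
  obtain ⟨x, hx4, hx6⟩ := (h4.and h6).exists
  rw [Function.iterate_add_apply] at hx6
  linarith

theorem lvl_uniq (f : ℝ → ℝ) (m n m' n' : ℕ) (h1 : Lvl f m n) (h2 : Lvl f m' n') :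
    m + n' = m' + n := by
  have h3 := lvl_add f m n n' h1
  have h4 := lvl_add f m' n' n h2
  rw [add_comm n' n] at h4
  unfold Lvl at h3 h4
  rcases lt_trichotomy (m + n') (m' + n) with h | h | h
  · obtain ⟨k, hk⟩ := Nat.exists_eq_add_of_lt h
    have e : m' + n = k + 1 + (m + n') := by omega
    rw [e] at h4
    exact (lvl_no _ _ _ h3 h4).elim
  · exact h
  · obtain ⟨k, hk⟩ := Nat.exists_eq_add_of_lt h
    have e : m + n' = k + 1 + (m' + n) := by omega
    rw [e] at h3
    exact (lvl_no _ _ _ h4 h3).elim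

theorem lvl_congr (f g : ℝ → ℝ) (m n : ℕ) (h : ∀ᶠ x in atTop, f x = g x) (h1 : Lvl f m n) :
    Lvl g m n := by
  unfold Lvl at h1 ⊢
  refine h1.congr' ?_
  filter_upwards [(expIter_top n).eventually h] with x hx
  rw [hx]

theorem hLC : StLC :=
  ⟨lvl_succ, fun f g m n m' n' _ hg h1 h2 => lvl_comp f g m n m' n' hg h1 h2,
    fun f m n m' n' _ h1 h2 => lvl_uniq f m n m' n' h1 h2, lvl_congr⟩

end Pool.Agent.Helper8.HG
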